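import Pool.Agent.H837dc.Final

set_option autoImplicit false

open Matrix

/-- The double-commutator map is not always surjective: it misses a pair of trace-zero `3 × 3` matrices
over the field with four elements (the pair `(x, ω x)` with `x` the companion matrix of `T³ - ω`). -/
theorem Pool.Agent.Results.MP_525382_al.NotSurjective.result :
    ∃ (K : Type) (_ : Field K), Nat.card K = 4 ∧
      ∃ x y : Matrix (Fin 3) (Fin 3) K, Matrix.trace x = 0 ∧ Matrix.trace y = 0 ∧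
        ¬ ∃ a b c : Matrix (Fin 3) (Fin 3) K, x = ⁅a, ⁅b, c⁆⁆ ∧ y = ⁅b, ⁅c, a⁆⁆ := by
  obtain ⟨K, i, hK⟩ := Pool.Agent.H837dc.exists_field
  obtain ⟨ω, h0, h1⟩ := Pool.Agent.H837dc.exists_omega hK
  refine ⟨K, i, hK, Pool.Agent.H837dc.cm ω, ω • Pool.Agent.H837dc.cm ω, Pool.Agent.H837dc.cm_trace ω,
    by rw [trace_smul, Pool.Agent.H837dc.cm_trace ω, smul_zero], ?_⟩
  rintro ⟨a, b, c, e1, e2⟩
  exact Pool.Agent.H837dc.no_solution hK ω h0 h1 a b c ⟨e1.symm, e2.symm⟩
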